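import Mathlib

/-!
# TN-D1: all derivatives of a Gibbs expectation in the inverse temperature
-/

set_option autoImplicit false

open MeasureTheory Filter Topology

noncomputable section

set_option linter.unusedSectionVars false

namespace Pool.Agent.Helper82.TN

/-- the Gibbs expectation of `u` with the energy `- A` at the inverse temperature `b` -/
def gb {X : Type*} [MeasurableSpace X] (μ : Measure X) (A : X → ℝ) (u : X → ℂ) (b : ℝ) : ℂ :=
  (∫ x, u x * (Real.exp (b * A x) : ℂ) ∂μ) / ((∫ x, Real.exp (b * A x) ∂μ : ℝ) : ℂ)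

section

variable {X : Type*} [TopologicalSpace X] [CompactSpace X] [SecondCountableTopology X]
  [MeasurableSpace X] [BorelSpace X] (μ : Measure X) [IsProbabilityMeasure μ] {A : X → ℝ}

theorem num_deriv (hA : Continuous A) {a : ℝ} (ha : ∀ x, |A x| ≤ a) {u : X → ℂ} (hu : Continuous u)
    {C : ℝ} (hC : ∀ x, ‖u x‖ ≤ C) (b : ℝ) :
    HasDerivAt (fun b : ℝ => ∫ x, u x * (Real.exp (b * A x) : ℂ) ∂μ)
      (∫ x, (u x * (A x : ℂ)) * (Real.exp (b * A x) : ℂ) ∂μ) b := by
  have hcont : ∀ b : ℝ, Continuous fun x => u x * (Real.exp (b * A x) : ℂ) := fun b =>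
    hu.mul (Complex.continuous_ofReal.comp (Real.continuous_exp.comp (continuous_const.mul hA)))
  have hcont' : ∀ b : ℝ, Continuous fun x => (u x * (A x : ℂ)) * (Real.exp (b * A x) : ℂ) :=
    fun b => (hu.mul (Complex.continuous_ofReal.comp hA)).mul
      (Complex.continuous_ofReal.comp (Real.continuous_exp.comp (continuous_const.mul hA)))
  have hint : ∀ {g : X → ℂ}, Continuous g → Integrable g μ := fun hg =>
    hg.integrable_of_hasCompactSupport (HasCompactSupport.of_compactSpace _)
  rcases isEmpty_or_nonempty X with hX | ⟨⟨x0⟩⟩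
  · have h1 : (μ Set.univ) = 0 := by
      rw [Set.univ_eq_empty_iff.2 hX, measure_empty]
    rw [measure_univ] at h1
    exact absurd h1 one_ne_zero
  have ha0 : 0 ≤ a := (abs_nonneg _).trans (ha x0)
  have hC0 : 0 ≤ C := (norm_nonneg _).trans (hC x0)
  refine (hasDerivAt_integral_of_dominated_loc_of_deriv_le
    (F := fun (b : ℝ) (x : X) => u x * (Real.exp (b * A x) : ℂ))
    (F' := fun (b : ℝ) (x : X) => (u x * (A x : ℂ)) * (Real.exp (b * A x) : ℂ))
    (bound := fun _ => C * a * Real.exp ((|b| + 1) * a)) (Metric.ball_mem_nhds b one_pos)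
    (Eventually.of_forall fun b' => (hcont b').aestronglyMeasurable) (hint (hcont b))
    (hcont' b).aestronglyMeasurable (Eventually.of_forall fun x y hy => ?_)
    (integrable_const _) (Eventually.of_forall fun x y _ => ?_)).2
  · rw [norm_mul, norm_mul, Complex.norm_real, Complex.norm_real, Real.norm_eq_abs,
      Real.norm_of_nonneg (Real.exp_pos _).le]
    refine mul_le_mul (mul_le_mul (hC x) (ha x) (abs_nonneg _) hC0) ?_ (Real.exp_pos _).le
      (mul_nonneg hC0 ha0)
    refine Real.exp_le_exp.2 ?_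
    refine (le_abs_self _).trans ?_
    rw [abs_mul]
    refine mul_le_mul ?_ (ha x) (abs_nonneg _) (by positivity)
    have h2 : |y - b| < 1 := by
      rw [← Real.dist_eq]
      exact hy
    have h3 := abs_sub_abs_le_abs_sub y b
    linarith
  · have h4 : HasDerivAt (fun b : ℝ => Real.exp (b * A x)) (Real.exp (y * A x) * (1 * A x)) y :=
      ((hasDerivAt_id y).mul_const (A x)).exp
    have h5 := (h4.ofReal_comp).const_mul (u x)
    refine h5.congr_deriv ?_
    push_cast
    ring

theorem gb_deriv (hA : Continuous A) {a : ℝ} (ha : ∀ x, |A x| ≤ a) {u : X → ℂ}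
    (hu : Continuous u) {C : ℝ} (hC : ∀ x, ‖u x‖ ≤ C) (b : ℝ) :
    HasDerivAt (gb μ A u)
      (gb μ A (fun x => u x * (A x : ℂ)) b - gb μ A u b * gb μ A (fun x => (A x : ℂ)) b) b := by
  have hN := num_deriv μ hA ha hu hC b
  have hone : ∀ b : ℝ, (∫ x, (1 : ℂ) * (Real.exp (b * A x) : ℂ) ∂μ)
      = ((∫ x, Real.exp (b * A x) ∂μ : ℝ) : ℂ) := fun b => by
    simp only [one_mul]
    exact integral_ofReal
  have hZ := num_deriv μ hA ha (u := fun _ => (1 : ℂ)) continuous_const
    (C := 1) (fun x => by simp) b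
  have hZ' : HasDerivAt (fun b : ℝ => ((∫ x, Real.exp (b * A x) ∂μ : ℝ) : ℂ))
      (∫ x, (A x : ℂ) * (Real.exp (b * A x) : ℂ) ∂μ) b := by
    have e1 : (fun b : ℝ => ∫ x, (1 : ℂ) * (Real.exp (b * A x) : ℂ) ∂μ)
        = fun b : ℝ => ((∫ x, Real.exp (b * A x) ∂μ : ℝ) : ℂ) := funext hone
    rw [e1] at hZ
    refine hZ.congr_deriv ?_
    simp only [one_mul]
  have hpos : ∀ b : ℝ, 0 < ∫ x, Real.exp (b * A x) ∂μ := fun b => by
    refine integral_exp_pos ?_
    exact (Real.continuous_exp.comp (continuous_const.mul hA)).integrable_of_hasCompactSupport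
      (HasCompactSupport.of_compactSpace _)
  have hZ0 : ((∫ x, Real.exp (b * A x) ∂μ : ℝ) : ℂ) ≠ 0 := by
    exact_mod_cast (hpos b).ne'
  have h := hN.div hZ' hZ0
  have e : gb μ A u = fun b => (∫ x, u x * (Real.exp (b * A x) : ℂ) ∂μ) /
    ((∫ x, Real.exp (b * A x) ∂μ : ℝ) : ℂ) := rfl
  rw [e]
  refine h.congr_deriv ?_
  unfold gb
  field_simp

theorem gb_bound (hA : Continuous A) {u : X → ℂ} {C : ℝ} (hC : ∀ x, ‖u x‖ ≤ C) (b : ℝ) :
    ‖gb μ A u b‖ ≤ C := by
  have hint : Integrable (fun x => Real.exp (b * A x)) μ :=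
    (Real.continuous_exp.comp (continuous_const.mul hA)).integrable_of_hasCompactSupport
      (HasCompactSupport.of_compactSpace _)
  have hpos : 0 < ∫ x, Real.exp (b * A x) ∂μ := integral_exp_pos hint
  unfold gb
  rw [norm_div, Complex.norm_real, Real.norm_of_nonneg hpos.le, div_le_iff₀ hpos,
    ← integral_const_mul]
  refine norm_integral_le_of_norm_le (hint.const_mul C) (Eventually.of_forall fun x => ?_)
  rw [norm_mul, Complex.norm_real, Real.norm_of_nonneg (Real.exp_pos _).le]
  exact mul_le_mul_of_nonneg_right (hC x) (Real.exp_pos _).le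

theorem gb_contDiff (hA : Continuous A) {a : ℝ} (ha : ∀ x, |A x| ≤ a) (j : ℕ) :
    ∀ (u : X → ℂ) (C : ℝ), Continuous u → (∀ x, ‖u x‖ ≤ C) → ContDiff ℝ j (gb μ A u) := by
  induction j with
  | zero =>
    intro u C hu hC
    exact contDiff_zero.2 (continuous_iff_continuousAt.2 fun b =>
      (gb_deriv μ hA ha hu hC b).continuousAt)
  | succ j ih =>
    intro u C hu hC
    have hAc : Continuous fun x => (A x : ℂ) := Complex.continuous_ofReal.comp hA
    have hAn : ∀ x, ‖(A x : ℂ)‖ ≤ a := fun x => by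
      rw [Complex.norm_real]
      exact ha x
    have hd : deriv (gb μ A u) = fun b =>
        gb μ A (fun x => u x * (A x : ℂ)) b - gb μ A u b * gb μ A (fun x => (A x : ℂ)) b :=
      funext fun b => (gb_deriv μ hA ha hu hC b).deriv
    have e : ((j + 1 : ℕ) : WithTop ℕ∞) = (j : WithTop ℕ∞) + 1 := by push_cast; rfl
    rw [e, contDiff_succ_iff_deriv]
    refine ⟨fun b => (gb_deriv μ hA ha hu hC b).differentiableAt, fun h => ?_, ?_⟩
    · exact absurd h (by simp)
    · rw [hd]
      have hCa : ∀ x, ‖u x * (A x : ℂ)‖ ≤ C * a := fun x => by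
        rw [norm_mul]
        exact mul_le_mul (hC x) (hAn x) (norm_nonneg _) ((norm_nonneg _).trans (hC x))
      exact (ih _ _ (hu.mul hAc) hCa).sub ((ih _ _ hu hC).mul (ih _ _ hAc hAn))

end

/-- **All derivatives of a Gibbs expectation.** -/
theorem gb_all (j : ℕ) : ∃ c : ℝ, 0 ≤ c ∧ ∀ (X : Type) [TopologicalSpace X] [CompactSpace X]
    [SecondCountableTopology X] [MeasurableSpace X] [BorelSpace X] (μ : Measure X)
    [IsProbabilityMeasure μ] (A : X → ℝ) (a : ℝ) (u : X → ℂ) (C : ℝ), Continuous A →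
    (∀ x, |A x| ≤ a) → Continuous u → (∀ x, ‖u x‖ ≤ C) → ContDiff ℝ j (gb μ A u) ∧
      ∀ i ≤ j, ∀ b, ‖iteratedDeriv i (gb μ A u) b‖ ≤ c * C * a ^ i := by
  induction j with
  | zero =>
    refine ⟨1, zero_le_one, fun X _ _ _ _ _ μ _ A a u C hA ha hu hC =>
      ⟨gb_contDiff μ hA ha 0 u C hu hC, fun i hi b => ?_⟩⟩
    obtain rfl : i = 0 := by omega
    rw [iteratedDeriv_zero, pow_zero, mul_one, one_mul]
    exact gb_bound μ hA hC b
  | succ j ih =>
    obtain ⟨c, hc, h⟩ := ih
    refine ⟨c + c * c * 2 ^ j, by positivity, fun X _ _ _ _ _ μ _ A a u C hA ha hu hC =>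
      ⟨gb_contDiff μ hA ha (j + 1) u C hu hC, fun i hi b => ?_⟩⟩
    rcases isEmpty_or_nonempty X with hX | ⟨⟨x0⟩⟩
    · have h1 : (μ Set.univ) = 0 := by
        rw [Set.univ_eq_empty_iff.2 hX, measure_empty]
      rw [measure_univ] at h1
      exact absurd h1 one_ne_zero
    have ha0 : 0 ≤ a := (abs_nonneg _).trans (ha x0)
    have hC0 : 0 ≤ C := (norm_nonneg _).trans (hC x0)
    have hAc : Continuous fun x => (A x : ℂ) := Complex.continuous_ofReal.comp hA
    have hAn : ∀ x, ‖(A x : ℂ)‖ ≤ a := fun x => by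
      rw [Complex.norm_real]
      exact ha x
    have hCa : ∀ x, ‖u x * (A x : ℂ)‖ ≤ C * a := fun x => by
      rw [norm_mul]
      exact mul_le_mul (hC x) (hAn x) (norm_nonneg _) hC0
    rcases Nat.lt_or_ge i (j + 1) with hlt | hge
    · have h2 := (h X μ A a u C hA ha hu hC).2 i (by omega) b
      refine h2.trans ?_
      have h3 : 0 ≤ c * c * 2 ^ j * C * a ^ i := by positivity
      nlinarith
    · obtain rfl : i = j + 1 := by omega
      have hd : deriv (gb μ A u) = fun b =>
          gb μ A (fun x => u x * (A x : ℂ)) b - gb μ A u b * gb μ A (fun x => (A x : ℂ)) b :=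
        funext fun b => (gb_deriv μ hA ha hu hC b).deriv
      have hu1 := h X μ A a (fun x => u x * (A x : ℂ)) (C * a) hA ha (hu.mul hAc) hCa
      have hu2 := h X μ A a u C hA ha hu hC
      have hu3 := h X μ A a (fun x => (A x : ℂ)) a hA ha hAc hAn
      rw [iteratedDeriv_succ', hd]
      have e1 : iteratedDeriv j (fun b => gb μ A (fun x => u x * (A x : ℂ)) b -
          gb μ A u b * gb μ A (fun x => (A x : ℂ)) b) b =
          iteratedDeriv j (gb μ A (fun x => u x * (A x : ℂ))) b -
            iteratedDeriv j (fun b => gb μ A u b * gb μ A (fun x => (A x : ℂ)) b) b :=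
        iteratedDeriv_sub hu1.1.contDiffAt (hu2.1.mul hu3.1).contDiffAt
      rw [e1]
      have e2 : ‖iteratedDeriv j (fun b => gb μ A u b * gb μ A (fun x => (A x : ℂ)) b) b‖ ≤
          ∑ i ∈ Finset.range (j + 1), (j.choose i : ℝ) * ‖iteratedDeriv i (gb μ A u) b‖ *
            ‖iteratedDeriv (j - i) (gb μ A (fun x => (A x : ℂ))) b‖ := by
        simp only [← norm_iteratedFDeriv_eq_norm_iteratedDeriv]
        exact norm_iteratedFDeriv_mul_le hu2.1 hu3.1 b le_rfl
      have e3 : ∑ i ∈ Finset.range (j + 1), (j.choose i : ℝ) * ‖iteratedDeriv i (gb μ A u) b‖ *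
          ‖iteratedDeriv (j - i) (gb μ A (fun x => (A x : ℂ))) b‖ ≤
          ∑ i ∈ Finset.range (j + 1), (j.choose i : ℝ) * (c * c * C * a ^ (j + 1)) := by
        refine Finset.sum_le_sum fun i hi => ?_
        have hi' : i ≤ j := by
          have := Finset.mem_range.1 hi
          omega
        rw [mul_assoc]
        refine mul_le_mul_of_nonneg_left ?_ (Nat.cast_nonneg _)
        refine (mul_le_mul (hu2.2 i hi' b) (hu3.2 (j - i) (by omega) b) (norm_nonneg _)
          (by positivity)).trans (le_of_eq ?_)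
        have e4 : a ^ (j + 1) = a ^ i * a ^ (j - i) * a := by
          rw [← pow_add, ← pow_succ]
          congr 1
          omega
        rw [e4]
        ring
      have e5 : ∑ i ∈ Finset.range (j + 1), (j.choose i : ℝ) * (c * c * C * a ^ (j + 1)) =
          2 ^ j * (c * c * C * a ^ (j + 1)) := by
        rw [← Finset.sum_mul]
        congr 1
        exact_mod_cast Nat.sum_range_choose j
      have e6 := hu1.2 j le_rfl b
      refine (norm_sub_le _ _).trans ?_
      have e7 := e2.trans (e3.trans_eq e5)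
      have e8 : c * (C * a) * a ^ j + 2 ^ j * (c * c * C * a ^ (j + 1)) =
          (c + c * c * 2 ^ j) * C * a ^ (j + 1) := by
        rw [pow_succ]
        ring
      linarith

end Pool.Agent.Helper82.TN
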