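import Mathlib

/-!
# TN-D2: exponentially fast uniform convergence and polynomial second derivatives give a `C¹` limit

Landau's inequality, then a telescoping series for the derivatives.
-/

set_option autoImplicit false

open Filter Topology

namespace Pool.Agent.Helper82.TN

/-- Landau's inequality, crude form. -/
theorem landau {g g1 g2 : ℝ → ℂ} {x h ε M : ℝ} (hh : 0 < h) (hM : 0 ≤ M)
    (h1 : ∀ b, HasDerivAt g (g1 b) b) (h2 : ∀ b, HasDerivAt g1 (g2 b) b) (h3 : ∀ b, ‖g2 b‖ ≤ M)
    (hx : ‖g x‖ ≤ ε) (hy : ‖g (x + h)‖ ≤ ε) : ‖g1 x‖ ≤ 2 * ε / h + M * h := by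
  have hlip : ∀ y, ‖g1 y - g1 x‖ ≤ M * ‖y - x‖ := fun y =>
    Convex.norm_image_sub_le_of_norm_hasDerivWithin_le (s := Set.univ)
      (fun b _ => (h2 b).hasDerivWithinAt) (fun b _ => h3 b) convex_univ (Set.mem_univ _)
      (Set.mem_univ _)
  have hφ : ∀ b, HasDerivAt (fun t : ℝ => g t - (t : ℂ) * g1 x) (g1 b - g1 x) b := by
    intro b
    have h4 : HasDerivAt (fun t : ℝ => (t : ℂ) * g1 x) (1 * g1 x) b :=
      (Complex.ofRealCLM.hasDerivAt (x := b)).mul_const (g1 x)
    have h5 := (h1 b).sub h4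
    rw [one_mul] at h5
    exact h5
  have key : ‖(g (x + h) - ((x + h : ℝ) : ℂ) * g1 x) - (g x - (x : ℂ) * g1 x)‖
      ≤ M * h * ‖(x + h) - x‖ := by
    refine Convex.norm_image_sub_le_of_norm_hasDerivWithin_le (s := Set.Icc x (x + h))
      (f := fun t : ℝ => g t - (t : ℂ) * g1 x) (fun b _ => (hφ b).hasDerivWithinAt)
      (fun b hb => ?_) (convex_Icc _ _) (Set.left_mem_Icc.2 (by linarith))
      (Set.right_mem_Icc.2 (by linarith))
    refine (hlip b).trans (mul_le_mul_of_nonneg_left ?_ hM)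
    rw [Real.norm_eq_abs, abs_le]
    constructor <;> linarith [hb.1, hb.2]
  have e1 : ‖(x + h) - x‖ = h := by
    rw [add_sub_cancel_left, Real.norm_of_nonneg hh.le]
  rw [e1] at key
  have e2 : (h : ℂ) * g1 x = (g (x + h) - g x)
      - ((g (x + h) - ((x + h : ℝ) : ℂ) * g1 x) - (g x - (x : ℂ) * g1 x)) := by
    push_cast
    ring
  have e3 : h * ‖g1 x‖ ≤ 2 * ε + M * h * h := by
    have e4 : ‖(h : ℂ) * g1 x‖ = h * ‖g1 x‖ := by
      rw [norm_mul, Complex.norm_real, Real.norm_of_nonneg hh.le]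
    rw [← e4, e2]
    refine (norm_sub_le _ _).trans ?_
    have e5 := (norm_sub_le (g (x + h)) (g x)).trans (add_le_add hy hx)
    linarith
  rw [← mul_le_mul_iff_right₀ hh]
  refine e3.trans (le_of_eq ?_)
  field_simp

/-- The majorant is summable. -/
theorem summ {c : ℝ} (hc : 0 < c) (q : ℕ) (A B : ℝ) :
    Summable fun n : ℕ => A * Real.exp (-(c * n)) + B * (((n : ℝ) + 2) ^ q * Real.exp (-(c * n))) := by
  have hr : ‖Real.exp (-c)‖ < 1 := by
    rw [Real.norm_of_nonneg (Real.exp_pos _).le]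
    rw [← Real.exp_zero]
    exact Real.exp_lt_exp.2 (by linarith)
  have h0 : ∀ n : ℕ, Real.exp (-(c * n)) = Real.exp (-c) ^ n := fun n => by
    rw [← Real.exp_nat_mul]
    congr 1
    ring
  have h1 : Summable fun n : ℕ => Real.exp (-(c * n)) := by
    simp only [h0]
    exact summable_geometric_of_norm_lt_one hr
  have h2 : Summable fun n : ℕ => ((n : ℝ) + 2) ^ q * Real.exp (-(c * n)) := by
    have h3 := summable_pow_mul_geometric_of_norm_lt_one (R := ℝ) q hr
    have h4 := (summable_nat_add_iff 2).2 h3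
    have h5 := h4.mul_left (Real.exp (-c) ^ 2)⁻¹
    refine h5.congr fun n => ?_
    rw [h0]
    have h6 : Real.exp (-c) ≠ 0 := (Real.exp_pos _).ne'
    push_cast
    rw [pow_add]
    field_simp
  exact (h1.mul_left A).add (h2.mul_left B)

theorem c1_of {s : ℕ → ℝ → ℂ} {E : ℝ → ℂ} {b0 δ K c : ℝ} (hδ : 0 < δ) (hK : 0 ≤ K) (hc : 0 < c)
    {q n0 : ℕ}
    (hconv : ∀ n, n0 ≤ n → ∀ b, |b - b0| < δ → ‖s n b - E b‖ ≤ K * Real.exp (-(c * n)))
    (hd : ∀ n, ∃ s1 s2 : ℝ → ℂ, (∀ b, HasDerivAt (s n) (s1 b) b) ∧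
      (∀ b, HasDerivAt s1 (s2 b) b) ∧ ∀ b, ‖s2 b‖ ≤ K * ((n : ℝ) + 1) ^ q) :
    ContDiffAt ℝ 1 E b0 := by
  choose s1 s2 h1 h2 h3 using hd
  have hc2 : 0 < c / 2 := by linarith
  -- the bound of the differences
  set u : ℕ → ℝ := fun n => (8 * K / δ) * Real.exp (-(c / 2 * n)) +
    (K * δ) * (((n : ℝ) + 2) ^ q * Real.exp (-(c / 2 * n))) with hu
  have hsum : Summable u := summ hc2 q _ _
  have hdiff : ∀ n, n0 ≤ n → ∀ b, |b - b0| < δ / 2 → dist (s1 n b) (s1 (n + 1) b) ≤ u n := by
    intro n hn b hb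
    have hexp : Real.exp (-(c / 2 * n)) ≤ 1 := by
      rw [Real.exp_le_one_iff]
      have : 0 ≤ c / 2 * (n : ℝ) := by positivity
      linarith
    have hpos := Real.exp_pos (-(c / 2 * (n : ℝ)))
    have hb2 := abs_lt.1 hb
    have hh : 0 < δ / 2 * Real.exp (-(c / 2 * n)) := by positivity
    have hle : δ / 2 * Real.exp (-(c / 2 * n)) ≤ δ / 2 := by
      have := mul_le_mul_of_nonneg_left hexp (by linarith : (0 : ℝ) ≤ δ / 2)
      linarith
    have hMn : ∀ y, ‖s2 (n + 1) y - s2 n y‖ ≤ 2 * K * ((n : ℝ) + 2) ^ q := by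
      intro y
      have a1 := h3 (n + 1) y
      have a2 := h3 n y
      have a3 : K * ((n : ℝ) + 1) ^ q ≤ K * ((n : ℝ) + 2) ^ q := by
        refine mul_le_mul_of_nonneg_left (pow_le_pow_left₀ (by positivity) (by linarith) q) hK
      have a4 : (((n + 1 : ℕ) : ℝ) + 1) = (n : ℝ) + 2 := by
        push_cast
        ring
      rw [a4] at a1
      refine (norm_sub_le _ _).trans ?_
      linarith
    have hε : ∀ y, |y - b0| < δ → ‖s (n + 1) y - s n y‖ ≤ 2 * K * Real.exp (-(c * n)) := by
      intro y hy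
      have a1 := hconv (n + 1) (by omega) y hy
      have a2 := hconv n hn y hy
      have a3 : Real.exp (-(c * ((n + 1 : ℕ) : ℝ))) ≤ Real.exp (-(c * n)) := by
        rw [Real.exp_le_exp]
        push_cast
        nlinarith
      have a4 := mul_le_mul_of_nonneg_left a3 hK
      have a5 : s (n + 1) y - s n y = (s (n + 1) y - E y) - (s n y - E y) := by ring
      rw [a5]
      refine (norm_sub_le _ _).trans ?_
      linarith
    have hl := landau (g := fun y => s (n + 1) y - s n y) (g1 := fun y => s1 (n + 1) y - s1 n y)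
      (g2 := fun y => s2 (n + 1) y - s2 n y) (x := b) (h := δ / 2 * Real.exp (-(c / 2 * n)))
      (ε := 2 * K * Real.exp (-(c * n))) (M := 2 * K * ((n : ℝ) + 2) ^ q) hh (by positivity)
      (fun y => (h1 (n + 1) y).sub (h1 n y)) (fun y => (h2 (n + 1) y).sub (h2 n y)) hMn
      (hε b (by rw [abs_lt]; constructor <;> linarith))
      (hε _ (by rw [abs_lt]; constructor <;> linarith))
    rw [dist_comm, dist_eq_norm]
    refine hl.trans (le_of_eq ?_)
    have e1 : Real.exp (-(c * n)) = Real.exp (-(c / 2 * n)) * Real.exp (-(c / 2 * n)) := by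
      rw [← Real.exp_add]
      congr 1
      ring
    rw [hu, e1]
    simp only
    field_simp
    ring
  -- the limit of the derivatives
  have hcau : ∀ b, |b - b0| < δ / 2 → ∃ a, Tendsto (fun n => s1 (n + n0) b) atTop (𝓝 a) := by
    intro b hb
    have h4 : CauchySeq fun n => s1 (n + n0) b := by
      refine cauchySeq_of_dist_le_of_summable (fun n => u (n + n0)) (fun n => ?_)
        ((summable_nat_add_iff n0).2 hsum)
      have h5 := hdiff (n + n0) (by omega) b hb
      have e : (n.succ + n0) = (n + n0) + 1 := by omega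
      show dist (s1 (n + n0) b) (s1 (n.succ + n0) b) ≤ u (n + n0)
      rw [e]
      exact h5
    exact cauchySeq_tendsto_of_complete h4
  choose! G hG using hcau
  set S : Set ℝ := {b | |b - b0| < δ / 2} with hS
  have hSo : IsOpen S := isOpen_lt (by fun_prop) continuous_const
  have hSm : b0 ∈ S := by
    show |b0 - b0| < δ / 2
    rw [sub_self, abs_zero]
    linarith
  have hunif : TendstoUniformlyOn (fun n => s1 (n + n0)) G atTop S := by
    rw [Metric.tendstoUniformlyOn_iff]
    intro ε hε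
    have htail : Tendsto (fun n => ∑' m, u (m + n + n0)) atTop (𝓝 0) := by
      have h5 := tendsto_sum_nat_add fun m => u (m + n0)
      refine h5.congr fun n => ?_
      refine tsum_congr fun m => ?_
      simp only
    filter_upwards [htail.eventually (gt_mem_nhds hε)] with n hn b hb
    have h6 := dist_le_tsum_of_dist_le_of_tendsto (f := fun n => s1 (n + n0) b)
      (fun n => u (n + n0)) (fun k => by
        have h5 := hdiff (k + n0) (by omega) b hb
        have e : (k.succ + n0) = (k + n0) + 1 := by omega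
        show dist (s1 (k + n0) b) (s1 (k.succ + n0) b) ≤ u (k + n0)
        rw [e]
        exact h5) ((summable_nat_add_iff n0).2 hsum) (hG b hb) n
    rw [dist_comm]
    refine lt_of_le_of_lt h6 (lt_of_eq_of_lt (tsum_congr fun m => ?_) hn)
    congr 1
    omega
  have hder : ∀ b ∈ S, HasDerivAt E (G b) b := by
    intro b hb
    refine hasDerivAt_of_tendstoLocallyUniformlyOn (f := fun n => s (n + n0))
      (f' := fun n => s1 (n + n0)) hSo hunif.tendstoLocallyUniformlyOn
      (Eventually.of_forall fun n y _ => h1 (n + n0) y) (fun y hy => ?_) hb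
    have hy2 : |y - b0| < δ := lt_trans hy (by linarith)
    rw [tendsto_iff_norm_sub_tendsto_zero]
    have h7 : Tendsto (fun n : ℕ => K * Real.exp (-(c * ((n + n0 : ℕ) : ℝ)))) atTop (𝓝 0) := by
      have h8 : Tendsto (fun n : ℕ => K * Real.exp (-(c * (n : ℝ)))) atTop (𝓝 (K * 0)) := by
        refine Tendsto.const_mul K (Real.tendsto_exp_neg_atTop_nhds_zero.comp ?_)
        exact tendsto_natCast_atTop_atTop.const_mul_atTop hc
      rw [mul_zero] at h8
      exact (tendsto_add_atTop_iff_nat n0).2 h8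
    exact squeeze_zero (fun n => norm_nonneg _) (fun n => hconv (n + n0) (by omega) y hy2) h7
  have hcont : ContinuousOn G S := by
    refine hunif.continuousOn (Eventually.frequently (Eventually.of_forall fun n => ?_))
    exact fun y _ => (h2 (n + n0) y).continuousAt.continuousWithinAt
  have hfin : ContDiffOn ℝ 1 E S := by
    have e : (1 : WithTop ℕ∞) = 0 + 1 := by norm_num
    rw [e, contDiffOn_succ_iff_deriv_of_isOpen hSo]
    refine ⟨fun b hb => (hder b hb).differentiableAt.differentiableWithinAt, fun h => ?_, ?_⟩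
    · simp at h
    · rw [contDiffOn_zero]
      exact hcont.congr fun b hb => (hder b hb).deriv
  exact hfin.contDiffAt (hSo.mem_nhds hSm)

end Pool.Agent.Helper82.TN
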